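import Mathlib

namespace Pool.Agent.H.MP_d84bc5_an

open Filter Topology Finset

abbrev L : Type := lp (fun _ : ℕ => ℝ) 1
abbrev X : Type := WithLp 2 (L × ℝ)

noncomputable def e (n : ℕ) (c : ℝ) : L := lp.single 1 n c

theorem e_app (n k : ℕ) (c : ℝ) : e n c k = if k = n then c else 0 := by
  simp [e, lp.single_apply, Pi.single_apply]

theorem add1 (u : L) (n : ℕ) (c : ℝ) : ‖u + e n c‖ = ‖u‖ - |u n| + |u n + c| := by
  have h1 := lp.norm_compl_sum_single (p := 1) (by simp) u {n}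
  have h2 := lp.norm_compl_sum_single (p := 1) (by simp) (u + e n c) {n}
  have h3 : (u + e n c) n = u n + c := by simp [e_app]
  rw [sum_singleton, h3, lp.single_add, add_sub_add_comm, show e n c - lp.single 1 n c = 0 from
    sub_self _, add_zero] at h2
  simp only [sum_singleton, ENNReal.toReal_one, Real.rpow_one, Real.norm_eq_abs, h3] at h1 h2
  linarith

def mk (u : L) (t : ℝ) : X := WithLp.toLp 2 (u, t)

theorem nsq (z : X) : ‖z‖ ^ 2 = ‖z.fst‖ ^ 2 + z.snd ^ 2 := by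
  rw [WithLp.prod_norm_sq_eq_of_L2, Real.norm_eq_abs, sq_abs]

def Good (n : ℕ) (G : AddSubgroup X) : Prop :=
  mk 0 2 ∈ G ∧ (∀ h ∈ G, ∀ i, n ≤ i → h.fst i = 0) ∧ ∀ h ∈ G, h ≠ 0 → 2 ≤ ‖h‖

theorem two_le {z : X} (h : 4 ≤ ‖z.fst‖ ^ 2 + z.snd ^ 2) : 2 ≤ ‖z‖ :=
  (le_abs_self _).trans (abs_le_of_sq_le_sq (by rw [nsq]; linarith) (norm_nonneg _))

theorem base : Good 0 (AddSubgroup.zmultiples (mk 0 2)) := by
  refine ⟨AddSubgroup.mem_zmultiples _, ?_, ?_⟩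
  · rintro _ ⟨k, rfl⟩ i -
    show (k • (0 : L)) i = 0
    simp
  · rintro _ ⟨k, rfl⟩ h
    have : k ≠ 0 := by rintro rfl; exact h (zero_zsmul _)
    have h1 : (1 : ℝ) ≤ k ^ 2 := by exact_mod_cast (one_le_sq_iff_one_le_abs k).2 (Int.one_le_abs this)
    refine two_le (le_add_of_nonneg_of_le (sq_nonneg _) ?_)
    show 4 ≤ (k • (2 : ℝ)) ^ 2
    rw [zsmul_eq_mul]; linarith

theorem step {ρ : ℝ} (h0 : 0 < ρ) (hρ : 3 * ρ ^ 2 = 4) (n : ℕ) (G : AddSubgroup X) (hG : Good n G)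
    (x : X) (hx : ∀ i, n ≤ i → x.fst i = 0) :
    ∃ H, Good (n + 1) H ∧ G ≤ H ∧ ∃ g ∈ H, ‖x - g‖ ≤ ρ := by
  by_cases hc : ∃ g ∈ G, ‖x - g‖ ≤ ρ
  · exact ⟨G, ⟨hG.1, fun h a i b => hG.2.1 h a i (by omega), hG.2.2⟩, le_rfl, hc⟩
  push Not at hc
  refine ⟨G ⊔ .zmultiples (x + mk (e n ρ) 0), ⟨AddSubgroup.mem_sup_left hG.1, ?_, ?_⟩, le_sup_left,
    _, AddSubgroup.mem_sup_right (AddSubgroup.mem_zmultiples _), ?_⟩
  · intro w hw i hi
    obtain ⟨h, hh, _, ⟨k, rfl⟩, rfl⟩ := AddSubgroup.mem_sup.1 hw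
    show h.fst i + k • (x.fst i + e n ρ i) = 0
    simp [hG.2.1 h hh i (by omega), hx i (by omega), e_app, show i ≠ n by omega]
  · intro w hw w0
    obtain ⟨h, hh, _, ⟨k, rfl⟩, rfl⟩ := AddSubgroup.mem_sup.1 hw
    rcases eq_or_ne k 0 with rfl | k0
    · simpa using hG.2.2 h hh (by simpa using w0)
    have a1 : ‖h.fst + k • (x.fst + e n ρ)‖ = ‖(h + k • x).fst‖ + |(k : ℝ)| * ρ := by
      have b : (h.fst + k • x.fst) n = 0 := by
        show h.fst n + k • x.fst n = 0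
        simp [hG.2.1 h hh n le_rfl, hx n le_rfl]
      rw [smul_add, ← add_assoc, show k • e n ρ = e n (k * ρ) from lp.ext (funext fun i => by
        simp [e_app]), add1, b, abs_zero, sub_zero, zero_add, abs_mul, abs_of_pos h0]
      rfl
    refine two_le ?_
    show 4 ≤ ‖h.fst + k • (x.fst + e n ρ)‖ ^ 2 + (h.snd + k • (x.snd + 0)) ^ 2
    rw [a1, add_zero, show h.snd + k • x.snd = (h + k • x).snd from rfl]
    have a2 := norm_nonneg (h + k • x).fst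
    rcases (Int.one_le_abs k0).eq_or_lt with c | c
    · have a3 : ∀ g ∈ G, ρ ^ 2 < ‖g + k • x‖ ^ 2 := fun g hg => by
        refine pow_lt_pow_left₀ ?_ h0.le two_ne_zero
        rcases (abs_eq zero_le_one).1 c.symm with rfl | rfl
        · simpa [add_comm] using hc (-g) (neg_mem hg)
        · simpa [← sub_eq_add_neg, norm_sub_rev] using hc g hg
      have a4 := a3 h hh
      have a5 := a3 _ (add_mem hh (G.zsmul_mem hG.1 (-round ((h + k • x).snd / 2))))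
      rw [add_right_comm, nsq] at a5
      rw [nsq] at a4
      have a6 := abs_sub_round ((h + k • x).snd / 2)
      have a7 : ρ ^ 2 < ‖(h + k • x).fst‖ ^ 2 +
          ((h + k • x).snd + -round ((h + k • x).snd / 2) * 2) ^ 2 := by
        simpa [mk] using a5
      have a8 : ρ / 2 ≤ ‖(h + k • x).fst‖ := (le_abs_self _).trans (abs_le_of_sq_le_sq
        (by nlinarith [sq_le_sq' (abs_le.1 a6).1 (abs_le.1 a6).2]) a2)
      rw [show |(k : ℝ)| = 1 by exact_mod_cast c.symm]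
      nlinarith
    · have a3 : (2 : ℝ) ≤ |(k : ℝ)| := by exact_mod_cast c
      have a4 := mul_le_mul_of_nonneg_right a3 h0.le
      nlinarith [sq_nonneg (h + k • x).snd]
  · rw [sub_add_cancel_left, norm_neg]
    refine (le_abs_self _).trans (abs_le_of_sq_le_sq (le_of_eq ?_) h0.le)
    simp [mk, e, lp.norm_single]

instance : TopologicalSpace.SeparableSpace L := by
  rw [← TopologicalSpace.isSeparable_univ_iff]
  refine (Set.countable_range fun n => e n 1).isSeparable.span (R := ℝ) |>.closure.mono fun u _ =>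
    mem_closure_of_tendsto (lp.hasSum_single (by simp) u) (.of_forall fun s =>
      Submodule.sum_mem _ fun i _ => ?_)
  rw [show lp.single 1 i (u i) = u i • e i 1 by simp [e, ← lp.single_smul]]
  exact Submodule.smul_mem _ _ (Submodule.subset_span ⟨i, rfl⟩)

theorem upper {ρ : ℝ} (h0 : 0 < ρ) (hρ : 3 * ρ ^ 2 = 4) : ∃ G : AddSubgroup X,
    (∀ h ∈ G, h ≠ 0 → 2 ≤ ‖h‖) ∧ ∀ ε > 0, ∀ z, ∃ g ∈ G, ‖z - g‖ ≤ ρ + ε := by
  let d := TopologicalSpace.denseSeq (L × ℝ)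
  let x (n : ℕ) : X := mk (∑ i ∈ range n, lp.single 1 i ((d n.unpair.1).1 i)) (d n.unpair.1).2
  have hx : ∀ n i, n ≤ i → (x n).fst i = 0 := fun n i hi => by
    show (∑ i ∈ range n, (lp.single 1 i ((d n.unpair.1).1 i) : L)) i = 0
    rw [lp.coeFn_sum, Finset.sum_apply]
    exact sum_eq_zero fun j hj => lp.single_apply_ne _ _ _ (by have := mem_range.1 hj; omega)
  choose F h1 h2 h3 using fun n (G : {G // Good n G}) => step h0 hρ n G.1 G.2 (x n) (hx n)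
  let G : ∀ n, {G // Good n G} := Nat.rec ⟨_, base⟩ fun n G => ⟨F n G, h1 n G⟩
  have m : Monotone fun n => (G n).1 := monotone_nat_of_le_succ fun n => h2 n (G n)
  refine ⟨⨆ n, (G n).1, fun h hh => ?_, fun ε hε z => ?_⟩
  · obtain ⟨n, hn⟩ := (AddSubgroup.mem_iSup_of_directed m.directed_le).1 hh
    exact (G n).2.2.2 h hn
  · obtain ⟨k, hk⟩ := (TopologicalSpace.denseRange_denseSeq (L × ℝ)).exists_dist_lt
      (z.fst, z.snd) (show 0 < ε / 3 by positivity)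
    obtain ⟨N, hN⟩ := Metric.tendsto_atTop.1 (lp.hasSum_single (by simp) (d k).1).tendsto_sum_nat _
      (show 0 < ε / 3 by positivity)
    obtain ⟨g, g1, g2⟩ := h3 (k.pair N) (G _)
    refine ⟨g, AddSubgroup.mem_iSup_of_mem (k.pair N + 1) g1, ?_⟩
    have a1 := hN _ (k.right_le_pair N)
    obtain ⟨a2, a3⟩ := max_lt_iff.1 (Prod.dist_eq.symm.trans_lt hk)
    have a4 := (dist_triangle_right _ _ _).trans (add_le_add a2.le a1.le)
    have a5 : ‖z - x (k.pair N)‖ ≤ ε := by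
      refine (le_abs_self _).trans (abs_le_of_sq_le_sq ?_ hε.le)
      rw [dist_eq_norm] at a3 a4
      rw [nsq, ← sq_abs (WithLp.snd _)]
      simp only [x, Nat.unpair_pair]
      have b1 := pow_le_pow_left₀ (norm_nonneg _) a4 2
      have b2 := pow_le_pow_left₀ (norm_nonneg _) a3.le 2
      exact (add_le_add b1 b2).trans (by nlinarith)
    linarith [norm_sub_le_norm_sub_add_norm_sub z (x (k.pair N)) g]

theorem csq (a b : ℝ) : ‖(⟨a, b⟩ : ℂ)‖ ^ 2 = a ^ 2 + b ^ 2 := by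
  rw [Complex.sq_norm, Complex.normSq_mk]; ring

theorem lower (P : Set X) (h1 : ∀ p ∈ P, ∀ q ∈ P, p ≠ q → 2 ≤ ‖p - q‖) {ρ a b : ℝ}
    (h2 : ∀ x, ∃ p ∈ P, ‖x - p‖ ≤ ρ) (ha : ρ < a) (hb : a < b) : 4 ≤ 3 * b ^ 2 := by
  obtain ⟨p, hp, p0⟩ := h2 0
  have r0 := (norm_nonneg _).trans p0
  have a0 := r0.trans_lt ha
  let c (q : X) : ℂ := ⟨-‖(q - p).fst‖, (q - p).snd⟩
  let z (φ : ℝ) : ℂ := ⟨a * |Real.cos φ|, a * Real.sin φ⟩
  have zc : Continuous z := Complex.equivRealProdCLM.symm.continuous.comp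
    (f := fun φ => (a * |Real.cos φ|, a * Real.sin φ)) (by fun_prop)
  let y (φ : ℝ) (n : ℕ) : X := p + mk (e n (z φ).re) (z φ).im
  have zs : ∀ φ, (z φ).re ^ 2 + (z φ).im ^ 2 = a ^ 2 := fun φ => by
    simp only [z, mul_pow, sq_abs, ← mul_add, Real.cos_sq_add_sin_sq, mul_one]
  have z0 : ∀ φ, 0 ≤ (z φ).re := fun φ => mul_nonneg a0.le (abs_nonneg _)
  have ne : ∀ n r, 0 ≤ r → ‖e n r‖ = r := fun n r h =>
    (lp.norm_single (E := fun _ : ℕ => ℝ) one_pos n r).trans (abs_of_nonneg h)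
  have ys : ∀ φ n q, ‖y φ n - q‖ ≤ ρ → q ≠ p ∧
      ‖(q - p).fst + e n (-(z φ).re)‖ ^ 2 + ((q - p).snd - (z φ).im) ^ 2 ≤ ρ ^ 2 := by
    intro φ n q h
    have h3 := pow_le_pow_left₀ (norm_nonneg _) h 2
    rw [norm_sub_rev, nsq] at h3
    replace h3 : ‖(q - p).fst + e n (-(z φ).re)‖ ^ 2 + ((q - p).snd - (z φ).im) ^ 2 ≤ ρ ^ 2 := by
      simpa [y, mk, e, ← sub_sub, lp.single_neg, ← sub_eq_add_neg] using h3
    refine ⟨?_, h3⟩
    rintro rfl
    simp only [sub_self, WithLp.zero_fst, WithLp.zero_snd, zero_add, zero_sub, neg_sq, e,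
      lp.single_neg, norm_neg] at h3
    rw [show ‖lp.single 1 n (z φ).re‖ = _ from ne n _ (z0 φ), zs] at h3
    nlinarith
  have cs : ∀ φ q, ‖c q - z φ‖ ^ 2 =
      (‖(q - p).fst‖ + (z φ).re) ^ 2 + ((q - p).snd - (z φ).im) ^ 2 := fun φ q => by
    rw [← Complex.eta (c q - z φ), csq]; simp [c]; ring
  let A := {φ | ∃ q ∈ P, q ≠ p ∧ ‖c q - z φ‖ ≤ ρ}
  obtain ⟨φ, ⟨q, q1, q2, q3⟩, hφ⟩ : ∃ φ, (∃ q ∈ P, q ≠ p ∧ ‖c q - z φ‖ < b) ∧ φ ∉ A := by
    by_contra! h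
    have o : IsOpen A := isOpen_iff_mem_nhds.2 fun φ ⟨q, q1, q2, q3⟩ => mem_of_superset
      ((isOpen_lt (continuous_const.sub zc).norm continuous_const).mem_nhds
        (q3.trans_lt (ha.trans hb))) fun ψ hψ => h ψ ⟨q, q1, q2, hψ⟩
    have cl : IsClosed A := isClosed_of_closure_subset fun φ hφ => by
      obtain ⟨ψ, b1, q, q1, q2, q3⟩ := mem_closure_iff.1 hφ {ψ | ‖z ψ - z φ‖ < b - ρ}
        (isOpen_lt (zc.sub continuous_const).norm continuous_const) (by simp; linarith)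
      replace b1 : ‖z ψ - z φ‖ < b - ρ := b1
      exact h φ ⟨q, q1, q2, (norm_sub_le_norm_sub_add_norm_sub (c q) (z ψ) (z φ)).trans_lt
        ((add_lt_add_of_le_of_lt q3 b1).trans_eq (add_sub_cancel _ _))⟩
    obtain ⟨q, q1, q2⟩ := h2 (y (Real.pi / 2) 0)
    obtain ⟨q3, q4⟩ := ys _ _ q q2
    obtain ⟨w, -, -, w1⟩ : (0 : ℝ) ∈ A := (IsClopen.eq_univ ⟨cl, o⟩ ⟨Real.pi / 2, q, q1, q3,
      (le_abs_self _).trans (abs_le_of_sq_le_sq (by rw [cs]; simpa [z, e] using q4) r0)⟩).symm ▸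
        Set.mem_univ _
    have := pow_le_pow_left₀ (norm_nonneg _) w1 2
    rw [cs] at this
    simp only [z, Real.cos_zero, abs_one, mul_one] at this
    nlinarith [norm_nonneg (w - p).fst, sq_nonneg ((w - p).snd - a * Real.sin 0)]
  choose r r1 r2 using fun n => h2 (y φ n)
  obtain ⟨n, hn⟩ : ∃ n, r n ≠ q := by
    by_contra! h
    refine hφ ⟨q, q1, q2, (le_abs_self _).trans (abs_le_of_sq_le_sq ?_ r0)⟩
    have t : Tendsto (fun n => (q - p).fst n) atTop (𝓝 0) :=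
      (lp.memℓp (q - p).fst).norm.summable_of_one.of_norm.tendsto_atTop_zero
    have t2 := (((t.abs.const_sub ‖(q - p).fst‖).add (t.add_const (-(z φ).re)).abs).pow 2).add_const
      (((q - p).snd - (z φ).im) ^ 2)
    rw [abs_zero, sub_zero, zero_add, abs_neg, abs_of_nonneg (z0 φ), ← cs] at t2
    exact le_of_tendsto' t2 fun n => by rw [← add1]; exact h n ▸ (ys φ n _ (r2 n)).2
  obtain ⟨b1, b2⟩ := ys φ n _ (r2 n)
  have b3 := pow_lt_pow_left₀ q3 (norm_nonneg _) two_ne_zero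
  have b4 := pow_le_pow_left₀ zero_le_two (h1 q q1 p hp q2) 2
  have b5 := pow_le_pow_left₀ zero_le_two (h1 _ (r1 n) p hp b1) 2
  have b6 := pow_le_pow_left₀ zero_le_two (h1 _ (r1 n) q q1 hn) 2
  have b7 : ‖(r n - p).fst‖ ≤ ‖(r n - p).fst + e n (-(z φ).re)‖ + (z φ).re := by
    have := norm_sub_le ((r n - p).fst + e n (-(z φ).re)) (e n (-(z φ).re))
    rwa [add_sub_cancel_right, e, lp.single_neg, norm_neg,
      show ‖lp.single 1 n (z φ).re‖ = _ from ne n _ (z0 φ), ← lp.single_neg] at this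
  have b8 := (norm_sub_le (r n - p).fst (q - p).fst).trans (add_le_add b7 le_rfl)
  rw [← sub_sub_sub_cancel_right (r n) q p] at b6
  rw [cs] at b3
  rw [nsq] at b4 b5 b6
  have b9 := pow_le_pow_left₀ (norm_nonneg _) b7 2
  have b10 := pow_le_pow_left₀ (norm_nonneg _) b8 2
  rw [WithLp.sub_fst, WithLp.sub_snd (r n - p)] at b6
  have b11 := zs φ
  have b12 : ρ ^ 2 ≤ b ^ 2 := pow_le_pow_left₀ r0 (ha.trans hb).le 2
  have b13 : a ^ 2 ≤ b ^ 2 := pow_le_pow_left₀ a0.le hb.le 2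
  generalize ‖(r n - p).fst + e n (-(z φ).re)‖ = β at *
  generalize ‖(q - p).fst‖ = u at *
  generalize (z φ).re = δ at *
  generalize (z φ).im = s at *
  generalize (q - p).snd = v at *
  generalize (r n - p).snd = w at *
  nlinarith [sq_nonneg (β - u - δ - δ), sq_nonneg (w + v - 3 * s)]

end Pool.Agent.H.MP_d84bc5_an
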